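import Pool.Agent.Helper13.JS.St

/-!
# JS module CO: the main inequality, centre `0`
-/

set_option autoImplicit false

noncomputable section

namespace Pool.Agent.Helper3.JS

open Finset ArithmeticFunction Pool.Agent.Helper13.JS
open Pool.Agent.Helper13.JC (Cov E1 offSum)

theorem mem_Sv' {x y : ℕ} {κ : ℝ} {a : ℕ → ℤ} {N : ℕ} (h : N ∈ Sv x y κ a) :
    (1 ≤ N ∧ N ≤ y) ∧ (∀ p : ℕ, p ≤ x → p.Prime → (p : ℤ) ∣ a p → ¬ p ∣ N) ∧
      (∀ s : ℕ, 3 ≤ s → s ≤ x → s.Prime → (s : ℝ) ≤ (x : ℝ) ^ κ → ¬ (s : ℤ) ∣ a s →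
        ¬ (s : ℤ) ∣ (N : ℤ) - a s) ∧ ((2 : ℤ) ∣ a 2 ∨ 2 ∣ N) := by
  classical
  unfold Sv at h
  rw [Finset.mem_filter, Finset.mem_Icc] at h
  obtain ⟨h1, h2, h3, h4⟩ := h
  refine ⟨h1, ?_, ?_, h4⟩
  · intro p hpx hp hpa
    refine h2 p ?_
    unfold On
    rw [Finset.mem_filter, Finset.mem_Icc]
    exact ⟨⟨hp.one_lt.le, hpx⟩, hp, hpa⟩
  · intro s hs3 hsx hs hsk hsa
    refine h3 s ?_
    unfold Qs
    rw [Finset.mem_filter, Finset.mem_Icc]
    exact ⟨⟨hs3, hsx⟩, hs, hsk, hsa⟩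

theorem hCO (hVC : StVC) (hUB : StUB) : StCO := by
  classical
  obtain ⟨κ, hκ, hκ4, hV⟩ := hVC
  obtain ⟨B, CU, hB, hCU, hU⟩ := hUB
  refine ⟨κ, hκ, hκ4, ?_⟩
  intro c₁ hc₁
  obtain ⟨ε, hε, hV1⟩ := hV c₁ hc₁
  refine ⟨ε, hε, ?_⟩
  intro κ₁ hκ₁ hκ₁4
  obtain ⟨c, x₀, hc, hx₀, hV2⟩ := hV1 κ₁ hκ₁ hκ₁4
  have hBR : (1 : ℝ) ≤ B := by exact_mod_cast hB
  have hBpos : (0 : ℝ) < B := by linarith
  have hC0 : 0 < 2 * CU * B / (κ * c) := by positivity
  refine ⟨2 * CU * B / (κ * c), x₀, hC0, hx₀, ?_⟩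
  intro x y a u hx hxy hyx hcov hu1 hu2 hD hms
  have hcard := hV2 x y a u hx hxy hyx hu1 hu2 hD hms
  have hx2 : (2 : ℝ) ≤ x := hx₀.trans hx
  have hxpos : (0 : ℝ) < x := by linarith
  have hlx : 0 < Real.log (x : ℝ) := Real.log_pos (by linarith)
  have hxyR : (x : ℝ) ≤ y := by exact_mod_cast hxy
  have hypos : (0 : ℝ) < y := by linarith
  set H : ℝ := (y : ℝ) / x with hHd
  have hH1 : 1 ≤ H := by
    rw [hHd, le_div_iff₀ hxpos, one_mul]
    exact hxyR
  have hHpos : 0 < H := by linarith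
  have hHx : H ≤ x := by
    rw [hHd, div_le_iff₀ hxpos]
    have : y ≤ x * x := by rw [← sq]; exact hyx
    exact_mod_cast this
  set F := E1 x ((x : ℝ) ^ κ) a with hFd
  set S := ∑ p ∈ F, 1 / (p : ℝ) with hSd
  have hS0 : 0 ≤ S := Finset.sum_nonneg fun p _ => by positivity
  rcases hH1.lt_or_eq with hH | hH
  swap
  · rw [← hH, Real.log_one]
    positivity
  have hlH : 0 < Real.log H := Real.log_pos hH
  have hκB : 0 < κ / B := by positivity
  have hκBκ : κ / B ≤ κ := div_le_self hκ.le hBR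
  have hHkB1 : 1 ≤ H ^ (κ / B) := Real.one_le_rpow hH1 hκB.le
  set w : ℕ := ⌊H ^ (κ / B)⌋₊ with hwd
  have hw1 : 1 ≤ w := Nat.le_floor (by exact_mod_cast hHkB1)
  have hwH : (w : ℝ) ≤ H ^ (κ / B) := Nat.floor_le (by linarith)
  have hHw : H ^ (κ / B) < w + 1 := Nat.lt_floor_add_one _
  have hwHk : (w : ℝ) ≤ H ^ κ := hwH.trans (Real.rpow_le_rpow_of_exponent_le hH1 hκBκ)
  have hHkx : H ^ κ ≤ (x : ℝ) ^ κ := Real.rpow_le_rpow hHpos.le hHx hκ.le
  have hwx : (w : ℝ) ≤ (x : ℝ) ^ κ := hwHk.trans hHkx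
  have hxkx : (x : ℝ) ^ κ ≤ x := by
    nth_rewrite 2 [← Real.rpow_one (x : ℝ)]
    exact Real.rpow_le_rpow_of_exponent_le (by linarith) (by linarith)
  have hlw : κ / B * Real.log H ≤ Real.log (w + 1) := by
    rw [← Real.log_rpow hHpos]
    exact Real.log_le_log (by positivity) hHw.le
  -- the covering
  set P := Sv x y κ a with hPd
  have hsub : P ⊆ F.biUnion (fun p => P.filter (fun N : ℕ => (N : ℤ) ≡ a p [ZMOD (p : ℤ)])) := by
    intro N hN
    obtain ⟨⟨hN1, hNy⟩, hN2, hN3, hN4⟩ := mem_Sv' hN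
    obtain ⟨p, hp, hpx, hpc⟩ := hcov N hN1 hNy
    have hdv : (p : ℤ) ∣ (N : ℤ) - a p := (Int.modEq_iff_dvd.1 hpc.symm)
    have hpa : ¬ (p : ℤ) ∣ a p := by
      intro h
      have h1 : (p : ℤ) ∣ (N : ℤ) := by
        have h3 := dvd_add hdv h
        simpa using h3
      exact hN2 p hpx hp h (by exact_mod_cast h1)
    have hpbig : (x : ℝ) ^ κ < p := by
      by_contra hcon
      push Not at hcon
      by_cases hp3 : 3 ≤ p
      · exact hN3 p hp3 hpx hp hcon hpa hdv
      · have hp2 : p = 2 := by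
          have := hp.two_le
          omega
        subst hp2
        rcases hN4 with h | h
        · exact hpa (by exact_mod_cast h)
        · have h1 : ((2 : ℕ) : ℤ) ∣ (N : ℤ) := by exact_mod_cast h
          have h2 := dvd_sub h1 hdv
          apply hpa
          simpa using h2
    rw [Finset.mem_biUnion]
    exact ⟨p, Pool.Agent.Helper13.JC.mem_E1.2 ⟨hpx, hp, hpbig, hpa⟩, Finset.mem_filter.2 ⟨hN, hpc⟩⟩
  have hone : ∀ p ∈ F, ((P.filter (fun N : ℕ => (N : ℤ) ≡ a p [ZMOD (p : ℤ)])).card : ℝ) ≤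
      2 * CU * B / (κ * Real.log H) * y * (1 / p) := by
    intro p hpF
    obtain ⟨hpx, hp, hpbig, hpa⟩ := Pool.Agent.Helper13.JC.mem_E1.1 hpF
    have hwp : w < p := by
      have : (w : ℝ) < p := hwx.trans_lt hpbig
      exact_mod_cast this
    have hpR : (0 : ℝ) < p := by exact_mod_cast hp.pos
    have hpxR : (p : ℝ) ≤ x := by exact_mod_cast hpx
    have hyp : H ≤ (y : ℝ) / p := div_le_div_of_nonneg_left hypos.le hpR hpxR
    have hN1 : (y : ℝ) / p < ((y / p + 1 : ℕ) : ℝ) := by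
      rw [div_lt_iff₀ hpR]
      have h4 : y < p * (y / p + 1) := Nat.lt_mul_div_succ y hp.pos
      have h5 : (y : ℝ) < ((p * (y / p + 1) : ℕ) : ℝ) := by exact_mod_cast h4
      rw [Nat.cast_mul] at h5
      linarith
    have hN2 : ((y / p + 1 : ℕ) : ℝ) ≤ 2 * (y / p) := by
      have h1 : ((y / p : ℕ) : ℝ) ≤ (y : ℝ) / p := Nat.cast_div_le
      push_cast
      linarith
    have hwB : w ^ B ≤ y / p + 1 := by
      have h2 : (w : ℝ) ^ B ≤ (H ^ (κ / B)) ^ B := pow_le_pow_left₀ (Nat.cast_nonneg w) hwH B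
      have h3 : (H ^ (κ / B)) ^ B = H ^ κ := by
        rw [← Real.rpow_natCast, ← Real.rpow_mul hHpos.le]
        congr 1
        field_simp
      have h4 : H ^ κ ≤ H := by
        nth_rewrite 2 [← Real.rpow_one H]
        exact Real.rpow_le_rpow_of_exponent_le hH1 (by linarith)
      have h5 : ((w ^ B : ℕ) : ℝ) < ((y / p + 1 : ℕ) : ℝ) := by
        rw [Nat.cast_pow]
        calc (w : ℝ) ^ B ≤ H ^ κ := by rw [← h3]; exact h2
          _ ≤ H := h4
          _ ≤ (y : ℝ) / p := hyp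
          _ < _ := hN1
      exact (by exact_mod_cast h5 : w ^ B < y / p + 1).le
    have hnd : ∀ s : ℕ, s.Prime → s ≤ w → ¬ s ∣ p := by
      intro s hs hsw hsp
      have := (Nat.prime_dvd_prime_iff_eq hs hp).1 hsp
      omega
    have hub := hU w (y / p + 1) p hw1 hwB hnd (a p % p) a
    have hpZ : (0 : ℤ) < p := by exact_mod_cast hp.pos
    have hle : (P.filter (fun N : ℕ => (N : ℤ) ≡ a p [ZMOD (p : ℤ)])).card ≤
        ((range (y / p + 1)).filter fun h : ℕ => ∀ s : ℕ, s.Prime → 5 ≤ s → s ≤ w →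
          ¬ (s : ℤ) ∣ a p % p + h * p - a s).card := by
      refine Finset.card_le_card_of_injOn (fun N => N / p) ?_ ?_
      · intro N hN
        rw [Finset.mem_coe, Finset.mem_filter] at hN
        obtain ⟨hNP, hNc⟩ := hN
        obtain ⟨⟨hN1, hNy⟩, hN2, hN3, hN4⟩ := mem_Sv' hNP
        rw [Finset.mem_coe, Finset.mem_filter, Finset.mem_range]
        refine ⟨?_, ?_⟩
        · exact Nat.lt_succ_of_le (Nat.div_le_div_right hNy)
        · intro s hs hs5 hsw hdv
          have hNeq : a p % p + ((N / p : ℕ) : ℤ) * p = N := by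
            have h1 : (N : ℤ) % p = a p % p := hNc
            rw [← h1]
            have h2 := Int.emod_add_mul_ediv (N : ℤ) p
            rw [mul_comm] at h2
            push_cast
            exact h2
          rw [hNeq] at hdv
          have hsk : (s : ℝ) ≤ (x : ℝ) ^ κ := by
            have : (s : ℝ) ≤ w := by exact_mod_cast hsw
            exact this.trans hwx
          have hsx : s ≤ x := by exact_mod_cast hsk.trans hxkx
          by_cases hsa : (s : ℤ) ∣ a s
          · have h3 := dvd_add hdv hsa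
            have h4 : (s : ℤ) ∣ (N : ℤ) := by simpa using h3
            exact hN2 s hsx hs hsa (by exact_mod_cast h4)
          · exact hN3 s (by omega) hsx hs hsk hsa hdv
      · intro N hN M hM hNM
        rw [Finset.mem_coe, Finset.mem_filter] at hN hM
        have h1 : (N : ℤ) % p = (M : ℤ) % p := hN.2.trans hM.2.symm
        have h2 : N % p = M % p := by exact_mod_cast h1
        have h3 : N / p = M / p := hNM
        rw [← Nat.div_add_mod N p, ← Nat.div_add_mod M p, h2, h3]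
    have hle' : ((P.filter (fun N : ℕ => (N : ℤ) ≡ a p [ZMOD (p : ℤ)])).card : ℝ) ≤
        CU * ((y / p + 1 : ℕ) : ℝ) / Real.log (w + 1) := by
      refine le_trans (by exact_mod_cast hle) hub
    refine hle'.trans ?_
    have h1 : CU * ((y / p + 1 : ℕ) : ℝ) / Real.log (w + 1) ≤
        CU * (2 * (y / p)) / (κ / B * Real.log H) := by
      refine div_le_div₀ (by positivity) ?_ (by positivity) hlw
      exact mul_le_mul_of_nonneg_left hN2 (by linarith)
    refine h1.trans (le_of_eq ?_)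
    field_simp
  have hcount : (P.card : ℝ) ≤ 2 * CU * B / (κ * Real.log H) * y * S := by
    have h1 : P.card ≤ ∑ p ∈ F, (P.filter (fun N : ℕ => (N : ℤ) ≡ a p [ZMOD (p : ℤ)])).card :=
      (Finset.card_le_card hsub).trans Finset.card_biUnion_le
    have h2 : (P.card : ℝ) ≤
        ∑ p ∈ F, ((P.filter (fun N : ℕ => (N : ℤ) ≡ a p [ZMOD (p : ℤ)])).card : ℝ) := by
      exact_mod_cast h1
    refine h2.trans ((Finset.sum_le_sum hone).trans (le_of_eq ?_))
    rw [hSd, Finset.mul_sum]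
  have h1 := hcard.trans hcount
  rw [div_le_iff₀ hlx] at h1
  have h2 : c * y * Real.log H ≤ y * (2 * CU * B / κ * S * Real.log x) := by
    have h3 := mul_le_mul_of_nonneg_right h1 hlH.le
    refine h3.trans (le_of_eq ?_)
    field_simp
  have h3 : c * Real.log H ≤ 2 * CU * B / κ * S * Real.log x := by
    have h4 : (y : ℝ) * (c * Real.log H) ≤ y * (2 * CU * B / κ * S * Real.log x) := by
      linarith
    exact le_of_mul_le_mul_left h4 hypos
  have h4 : Real.log H ≤ 2 * CU * B / (κ * c) * (S * Real.log x) := by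
    have h5 : 2 * CU * B / (κ * c) * (S * Real.log x) =
        (2 * CU * B / κ * S * Real.log x) / c := by
      field_simp
    rw [h5, le_div_iff₀ hc]
    linarith
  refine h4.trans ?_
  rw [mul_add, mul_one]
  linarith

end Pool.Agent.Helper3.JS
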